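import Pool.Agent.Helper25.FB.Spec

/-! FB part ENDDIV -/

set_option autoImplicit false

open Pool.Agent.Helper25.FB Pool.Agent.Helper25.FB.Inj Filter Topology

namespace Pool.Agent.Helper9.FB

theorem td_star (P : Pol) : (star P).totalDegree = P.totalDegree := by
  unfold Pool.Agent.Helper25.FB.Inj.star MvPolynomial.totalDegree
  rw [MvPolynomial.support_map_of_injective P (starRingEnd ℂ).injective]

theorem lead_star (P : Pol) : lead (star P) = star (lead P) := by
  unfold lead
  rw [td_star]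
  ext d
  unfold Pool.Agent.Helper25.FB.Inj.star
  rw [MvPolynomial.coeff_homogeneousComponent, MvPolynomial.coeff_map, MvPolynomial.coeff_map,
    MvPolynomial.coeff_homogeneousComponent]
  split_ifs <;> simp

theorem eval_star (P : Pol) (z : Fin 2 → ℂ) :
    MvPolynomial.eval z (star P) =
      (starRingEnd ℂ) (MvPolynomial.eval (fun i => (starRingEnd ℂ) (z i)) P) :=
  conj_eval P z

/-- Lagrange bound -/
theorem lag (m : ℕ) (c : ℕ → ℂ) (v : Fin m → ℂ) (hv : Function.Injective v) (y : ℂ) (δ K : ℝ)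
    (hK : 1 ≤ K) (hδ : 0 ≤ δ) (h1 : ∀ j, ‖∑ i ∈ Finset.range m, c i * v j ^ i‖ ≤ δ)
    (h2 : ∀ j k, j ≠ k → ‖(v j - v k)⁻¹ * (y - v k)‖ ≤ K) :
    ‖∑ i ∈ Finset.range m, c i * y ^ i‖ ≤ m * (δ * K ^ m) := by
  set p : Polynomial ℂ := ∑ i ∈ Finset.range m, Polynomial.C (c i) * Polynomial.X ^ i with hp
  have hpe : ∀ w : ℂ, p.eval w = ∑ i ∈ Finset.range m, c i * w ^ i := by
    intro w
    rw [hp, Polynomial.eval_finset_sum]
    simp
  have hdeg : p.degree < (Finset.univ : Finset (Fin m)).card := by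
    rw [Finset.card_univ, Fintype.card_fin]
    refine lt_of_le_of_lt (Polynomial.degree_sum_le _ _) ?_
    refine (Finset.sup_lt_iff ?_).2 ?_
    · exact WithBot.bot_lt_coe _
    · intro i hi
      refine lt_of_le_of_lt (Polynomial.degree_C_mul_X_pow_le _ _) ?_
      exact_mod_cast Finset.mem_range.1 hi
  have heq := Lagrange.eq_interpolate (f := p) (s := Finset.univ) (v := v) hv.injOn hdeg
  have hy : p.eval y = ∑ j, p.eval (v j) * ∏ k ∈ Finset.univ.erase j,
      ((v j - v k)⁻¹ * (y - v k)) := by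
    conv_lhs => rw [heq]
    rw [Lagrange.interpolate_apply, Polynomial.eval_finset_sum]
    refine Finset.sum_congr rfl fun j _ => ?_
    rw [Polynomial.eval_mul, Polynomial.eval_C]
    congr 1
    unfold Lagrange.basis
    rw [Polynomial.eval_prod]
    refine Finset.prod_congr rfl fun k _ => ?_
    simp [Lagrange.basisDivisor]
  rw [← hpe, hy]
  refine (norm_sum_le _ _).trans ?_
  have : ∀ j ∈ (Finset.univ : Finset (Fin m)), ‖p.eval (v j) * ∏ k ∈ Finset.univ.erase j,
      ((v j - v k)⁻¹ * (y - v k))‖ ≤ δ * K ^ m := by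
    intro j _
    rw [norm_mul, norm_prod]
    refine mul_le_mul ?_ ?_ (Finset.prod_nonneg fun _ _ => norm_nonneg _) hδ
    · rw [hpe]; exact h1 j
    · refine (Finset.prod_le_prod (g := fun _ => K) (fun _ _ => norm_nonneg _) ?_).trans ?_
      · intro k hk
        exact h2 j k (Finset.ne_of_mem_erase hk).symm
      · rw [Finset.prod_const]
        refine pow_le_pow_right₀ hK ?_
        refine (Finset.card_le_card (Finset.erase_subset _ _)).trans ?_
        simp
  refine (Finset.sum_le_sum this).trans (le_of_eq ?_)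
  rw [Finset.sum_const, Finset.card_univ, Fintype.card_fin, nsmul_eq_mul]

theorem main (hD : S_DIV1) (hR : S_ROOT) : S_ENDDIV := by
  intro P E hlead G hG hlim
  have hQ : MvPolynomial.eval ![0, 1] (lead (star P)) ≠ 0 := by
    rw [lead_star, eval_star]
    intro h
    have h1 := (map_eq_zero (starRingEnd ℂ)).1 h
    apply hlead
    have hf : (fun i => (starRingEnd ℂ) ((![0, 1] : Fin 2 → ℂ) i)) = ![0, 1] := by
      funext i
      fin_cases i <;> simp
    rwa [hf] at h1
  obtain ⟨g, c, hg, hc, hGg, hexp⟩ := hD (star P) G hQ hG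
  rw [td_star] at hGg
  obtain ⟨c0, C, hc0, hroot⟩ := hR P P.totalDegree E
  have hzero : ∀ x y : ℂ, ∑ i ∈ Finset.range P.totalDegree, c i x * y ^ i = 0 := by
    intro x₀ y
    have hdiff : Differentiable ℂ (fun x => ∑ i ∈ Finset.range P.totalDegree, c i x * y ^ i) := by
      refine Differentiable.fun_sum fun i _ => ?_
      exact (hc i).mul_const _
    refine hdiff.apply_eq_of_tendsto_cocompact x₀ ?_
    rw [← Metric.cobounded_eq_cocompact, Metric.tendsto_nhds]
    intro ε hε
    set K : ℝ := max 1 ((1 + |C|) / c0) with hK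
    have hK1 : 1 ≤ K := le_max_left _ _
    set δ : ℝ := ε / (2 * (((P.totalDegree : ℝ) + 1) * K ^ P.totalDegree)) with hδ
    have hδ0 : 0 < δ := by positivity
    have hev : ∀ᶠ t in Bornology.cobounded ℂ, ∀ k, ‖G (E.z k t)‖ < δ := by
      rw [eventually_all]
      intro k
      have := (Metric.tendsto_nhds.1 (hlim k)) δ hδ0
      simpa using this
    obtain ⟨ρ₁, hρ₁⟩ : ∃ ρ₁ : ℝ, ∀ t : ℂ, ρ₁ < ‖t‖ → ∀ k, ‖G (E.z k t)‖ < δ := by
      have h3 : {t : ℂ | ∀ k, ‖G (E.z k t)‖ < δ} ∈ Bornology.cobounded ℂ := hev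
      rw [← Bornology.isCobounded_def, ← Bornology.isBounded_compl_iff] at h3
      obtain ⟨R, hR⟩ := h3.exists_norm_le
      refine ⟨R, fun t ht => ?_⟩
      by_contra hcon
      have := hR t hcon
      linarith
    obtain ⟨ρ₂, hρ₂⟩ := hroot ρ₁
    have hbig : ∀ᶠ x in Bornology.cobounded ℂ, max ρ₂ (max 1 ‖y‖) < ‖x‖ :=
      (tendsto_norm_cobounded_atTop).eventually_gt_atTop _
    filter_upwards [hbig] with x hx
    have hx2 : ρ₂ < ‖x‖ := lt_of_le_of_lt (le_max_left _ _) hx
    have hx1 : 1 < ‖x‖ := lt_of_le_of_lt ((le_max_left _ _).trans (le_max_right _ _)) hx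
    have hxy : ‖y‖ < ‖x‖ := lt_of_le_of_lt ((le_max_right _ _).trans (le_max_right _ _)) hx
    have hx0 : 0 < ‖x‖ := by linarith
    obtain ⟨t, ht, hsep⟩ := hρ₂ x hx2
    set v : Fin P.totalDegree → ℂ := fun j => E.z j (t j) 1 with hv
    have hzv : ∀ j, E.z j (t j) = ![x, v j] := by
      intro j
      funext a
      fin_cases a
      · exact (ht j).2.1
      · rfl
    have hinj : Function.Injective v := by
      intro j k hjk
      by_contra hne
      have := hsep j k hne
      rw [show E.z j (t j) 1 - E.z k (t k) 1 = v j - v k from rfl, hjk, sub_self,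
        norm_zero] at this
      have : 0 < c0 * ‖x‖ := by positivity
      linarith
    have hval : ∀ j, ‖∑ i ∈ Finset.range P.totalDegree, c i x * v j ^ i‖ ≤ δ := by
      intro j
      have h4 := hGg x (v j)
      rw [← hzv j, (ht j).2.2.2, zero_mul, zero_add] at h4
      rw [← h4]
      exact (hρ₁ _ (ht j).1 j).le
    have hfac : ∀ j k, j ≠ k → ‖(v j - v k)⁻¹ * (y - v k)‖ ≤ K := by
      intro j k hjk
      refine le_trans ?_ (le_max_right _ _)
      have h5 : c0 * ‖x‖ ≤ ‖v j - v k‖ := hsep j k hjk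
      have h6 : ‖y - v k‖ ≤ (1 + |C|) * ‖x‖ := by
        have h7 : ‖v k‖ ≤ C * ‖x‖ := (ht k).2.2.1
        have h8 : C * ‖x‖ ≤ |C| * ‖x‖ := mul_le_mul_of_nonneg_right (le_abs_self C) hx0.le
        have h9 := norm_sub_le y (v k)
        nlinarith
      have h10 : 0 < ‖v j - v k‖ := lt_of_lt_of_le (by positivity) h5
      rw [norm_mul, norm_inv, inv_mul_eq_div, div_le_div_iff₀ h10 hc0]
      have h11 : 0 ≤ 1 + |C| := by positivity
      nlinarith [mul_le_mul_of_nonneg_left h5 h11, mul_le_mul_of_nonneg_right h6 hc0.le]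
    have hfin := lag P.totalDegree (fun i => c i x) v hinj y δ K hK1 hδ0.le hval hfac
    rw [dist_zero_right]
    refine lt_of_le_of_lt hfin ?_
    have hKm : 0 < K ^ P.totalDegree := by positivity
    have h12 : (P.totalDegree : ℝ) * (δ * K ^ P.totalDegree) = ε / 2 * ((P.totalDegree : ℝ) / ((P.totalDegree : ℝ) + 1)) := by
      rw [hδ]
      field_simp
    rw [h12]
    have h13 : (P.totalDegree : ℝ) / ((P.totalDegree : ℝ) + 1) ≤ 1 := by
      rw [div_le_one (by positivity)]
      linarith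
    nlinarith
  refine ⟨g, hg, fun z => ?_, hexp⟩
  have hz : z = ![z 0, z 1] := by
    funext a
    fin_cases a <;> rfl
  have h := hGg (z 0) (z 1)
  rw [hzero, add_zero, ← hz] at h
  exact h

end Pool.Agent.Helper9.FB

theorem Pool.Agent.Helper25.FB.enddiv_thm (hD : Pool.Agent.Helper25.FB.S_DIV1)
    (hR : Pool.Agent.Helper25.FB.S_ROOT) : Pool.Agent.Helper25.FB.S_ENDDIV :=
  Pool.Agent.Helper9.FB.main hD hR
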